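import Pool.Agent.H223R3.Flute.Main

set_option autoImplicit false

open MeasureTheory Set Filter Topology

/-!
# A strip criterion for flute surfaces with twists in `{0, 1/2}`

Every crossing of a pants curve lengthens, for the lines of the strip, the distance to that end
(the top or the bottom of the closed curves, followed through the half-twists) which is on top at
the moment of the crossing.
-/

namespace Pool.Agent.Y203.Flute

open Pool.Agent.H223R3.Flute

/-- The end which is on top in `P (k + 1)`: it changes with every half-twist. -/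
noncomputable def top (t : ℕ → ℝ) : ℕ → Bool
  | 0 => true
  | k + 1 => if t (k + 1) = 0 then top t k else !top t k

/-- The total growth `(ℓ (j + 1) - ℓ j) / 2` of the half lengths at the earlier steps `j < k` at
which the end `b` was on top. -/
noncomputable def growth (ℓ t : ℕ → ℝ) (b : Bool) (k : ℕ) : ℝ :=
  ∑ j ∈ Finset.range k, if top t j = b then (ℓ (j + 1) - ℓ j) / 2 else 0

/-- The growth, up to step `k`, of the end which is on top at step `k`. -/
noncomputable def gain (ℓ t : ℕ → ℝ) (k : ℕ) : ℝ := growth ℓ t (top t k) k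

variable {ℓ t : ℕ → ℝ}

theorem growth_nonneg (hmono : Monotone ℓ) (b : Bool) (k : ℕ) : 0 ≤ growth ℓ t b k := by
  unfold growth
  apply Finset.sum_nonneg
  intro j _
  split_ifs
  · have := hmono (Nat.le_succ j)
    simp only [Nat.succ_eq_add_one] at this
    linarith
  · exact le_rfl

theorem growth_succ (b : Bool) (k : ℕ) : growth ℓ t b (k + 1) =
    growth ℓ t b k + if top t k = b then (ℓ (k + 1) - ℓ k) / 2 else 0 := by
  unfold growth
  rw [Finset.sum_range_succ]

/-- The heights of the lines of the strip, exactly. -/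
theorem ht_eq (σ : ℝ) (k : ℕ) :
    (top t k = true → ℓ k / 2 - ht ℓ t k σ = (ℓ 0 / 2 - σ) + growth ℓ t true k ∧
      ht ℓ t k σ = σ + growth ℓ t false k) ∧
    (top t k = false → ℓ k / 2 - ht ℓ t k σ = σ + growth ℓ t false k ∧
      ht ℓ t k σ = (ℓ 0 / 2 - σ) + growth ℓ t true k) := by
  induction k with
  | zero =>
    refine ⟨fun _ => ?_, fun h => ?_⟩
    · simp [ht, growth]
    · simp [top] at h
  | succ k ih =>
    cases hk : top t k with
    | true =>
      obtain ⟨h1, h2⟩ := ih.1 hk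
      have g1 : growth ℓ t true (k + 1) = growth ℓ t true k + (ℓ (k + 1) - ℓ k) / 2 := by
        rw [growth_succ, if_pos hk]
      have g2 : growth ℓ t false (k + 1) = growth ℓ t false k := by
        rw [growth_succ, if_neg (by rw [hk]; simp), add_zero]
      by_cases h : t (k + 1) = 0
      · have e1 : top t (k + 1) = true := by simp [top, h, hk]
        have e2 : ht ℓ t (k + 1) σ = ht ℓ t k σ := by simp [ht, h]
        rw [e1, e2, g1, g2]
        refine ⟨fun _ => ⟨by linarith, by linarith⟩, fun h => by simp at h⟩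
      · have e1 : top t (k + 1) = false := by simp [top, h, hk]
        have e2 : ht ℓ t (k + 1) σ = ℓ (k + 1) / 2 - ht ℓ t k σ := by simp [ht, h]
        rw [e1, e2, g1, g2]
        refine ⟨fun h => by simp at h, fun _ => ⟨by linarith, by linarith⟩⟩
    | false =>
      obtain ⟨h1, h2⟩ := ih.2 hk
      have g1 : growth ℓ t true (k + 1) = growth ℓ t true k := by
        rw [growth_succ, if_neg (by rw [hk]; simp), add_zero]
      have g2 : growth ℓ t false (k + 1) = growth ℓ t false k + (ℓ (k + 1) - ℓ k) / 2 := by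
        rw [growth_succ, if_pos hk]
      by_cases h : t (k + 1) = 0
      · have e1 : top t (k + 1) = false := by simp [top, h, hk]
        have e2 : ht ℓ t (k + 1) σ = ht ℓ t k σ := by simp [ht, h]
        rw [e1, e2, g1, g2]
        refine ⟨fun h => by simp at h, fun _ => ⟨by linarith, by linarith⟩⟩
      · have e1 : top t (k + 1) = true := by simp [top, h, hk]
        have e2 : ht ℓ t (k + 1) σ = ℓ (k + 1) / 2 - ht ℓ t k σ := by simp [ht, h]
        rw [e1, e2, g1, g2]
        refine ⟨fun _ => ⟨by linarith, by linarith⟩, fun h => by simp at h⟩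

/-- The distance of a line of the strip from the top is at least the gain. -/
theorem gain_le {σ : ℝ} (h0 : 0 ≤ σ) (h1 : σ ≤ ℓ 0 / 2) (k : ℕ) :
    gain ℓ t k ≤ ℓ k / 2 - ht ℓ t k σ := by
  obtain ⟨h2, h3⟩ := ht_eq (ℓ := ℓ) (t := t) σ k
  unfold gain
  cases hk : top t k with
  | true =>
    have := (h2 hk).1
    linarith
  | false =>
    have := (h3 hk).1
    linarith

/-- The widths of the strip are summable, uniformly in the parameter, with explicit constants. -/
theorem sum_width_le' (hpos : ∀ n, 0 < ℓ n) (hmono : Monotone ℓ) {S : ℝ}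
    (hS : ∀ K, ∑ k ∈ Finset.range K, Real.exp (-gain ℓ t k) ≤ S) (σ : ℝ) (h0 : 0 ≤ σ)
    (h1 : σ ≤ ℓ 0 / 2) (K : ℕ) :
    ∑ k ∈ Finset.range K, ortho (ℓ k) (ℓ (k + 1)) * Real.cosh (ht ℓ t k σ) ≤
      4 * S / (1 - Real.exp (-ℓ 0)) := by
  set c0 : ℝ := (1 - Real.exp (-(2 * (ℓ 0 / 2)))) / 2 with hc0
  have hc0pos : 0 < c0 := by
    have : Real.exp (-(2 * (ℓ 0 / 2))) < 1 := by
      rw [Real.exp_lt_one_iff]; linarith [hpos 0]
    rw [hc0]; linarith
  have hterm : ∀ k, ortho (ℓ k) (ℓ (k + 1)) * Real.cosh (ht ℓ t k σ) ≤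
      2 / c0 * Real.exp (-(ℓ k / 2 - ht ℓ t k σ)) := by
    intro k
    obtain ⟨h2, h3⟩ := ht_mem (t := t) hpos hmono h0 h1 k
    have hw : ∀ j, k ≤ j → wid (ℓ j) ≤ 1 / (c0 * Real.exp (ℓ k / 2)) := by
      intro j hj
      refine (wid_le (hpos j)).trans ?_
      have hj0 : ℓ 0 / 2 ≤ ℓ j / 2 := by
        have := hmono (Nat.zero_le j); linarith
      have hs := sinh_ge hj0
      rw [← hc0] at hs
      have hjk : Real.exp (ℓ k / 2) ≤ Real.exp (ℓ j / 2) := by
        apply Real.exp_le_exp.2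
        have := hmono hj; linarith
      apply one_div_le_one_div_of_le (by positivity)
      exact (mul_le_mul_of_nonneg_left hjk hc0pos.le).trans hs
    have ho : ortho (ℓ k) (ℓ (k + 1)) ≤ 2 / (c0 * Real.exp (ℓ k / 2)) := by
      unfold ortho
      have e1 := hw k le_rfl
      have e2 := hw (k + 1) (Nat.le_succ k)
      have e3 : 2 / (c0 * Real.exp (ℓ k / 2)) =
          1 / (c0 * Real.exp (ℓ k / 2)) + 1 / (c0 * Real.exp (ℓ k / 2)) := by ring
      rw [e3]; linarith
    calc ortho (ℓ k) (ℓ (k + 1)) * Real.cosh (ht ℓ t k σ)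
        ≤ 2 / (c0 * Real.exp (ℓ k / 2)) * Real.exp (ht ℓ t k σ) := by
          apply mul_le_mul ho (cosh_le_exp h2) (Real.cosh_pos _).le (by positivity)
      _ = 2 / c0 * Real.exp (-(ℓ k / 2 - ht ℓ t k σ)) := by
          rw [show -(ℓ k / 2 - ht ℓ t k σ) = ht ℓ t k σ - ℓ k / 2 by ring, Real.exp_sub]
          field_simp
  calc ∑ k ∈ Finset.range K, ortho (ℓ k) (ℓ (k + 1)) * Real.cosh (ht ℓ t k σ)
      ≤ ∑ k ∈ Finset.range K, 2 / c0 * Real.exp (-(ℓ k / 2 - ht ℓ t k σ)) :=
        Finset.sum_le_sum fun k _ => hterm k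
    _ = 2 / c0 * ∑ k ∈ Finset.range K, Real.exp (-(ℓ k / 2 - ht ℓ t k σ)) := by
        rw [Finset.mul_sum]
    _ ≤ 2 / c0 * S := by
        apply mul_le_mul_of_nonneg_left _ (by positivity)
        refine le_trans ?_ (hS K)
        apply Finset.sum_le_sum
        intro k _
        apply Real.exp_le_exp.2
        have := gain_le (ℓ := ℓ) (t := t) h0 h1 k
        linarith
    _ = 4 * S / (1 - Real.exp (-ℓ 0)) := by
        have e : c0 = (1 - Real.exp (-ℓ 0)) / 2 := by
          rw [hc0]; congr 3; ring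
        have hne : 1 - Real.exp (-ℓ 0) ≠ 0 := by
          intro h
          rw [e, h] at hc0pos
          simp at hc0pos
        rw [e]
        field_simp
        ring

/-- **The strip criterion, with an explicit bound for the capacity.** -/
theorem energy_ge (hpos : ∀ n, 0 < ℓ n) (hmono : Monotone ℓ)
    (ht' : ∀ n, t n = 0 ∨ t n = 1 / 2) {S : ℝ}
    (hS : ∀ K, ∑ k ∈ Finset.range K, Real.exp (-gain ℓ t k) ≤ S) (U : TestFun ℓ t)
    (hone : ∀ n b p, n ≤ 1 → p ∈ piece ℓ n → p.2 ≤ ℓ 0 / 2 → U.u n b p = 1) :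
    ENNReal.ofReal (ℓ 0 * (1 - Real.exp (-ℓ 0)) / (8 * S)) ≤ U.energy := by
  have hS0 : 0 < S := by
    have h := hS 1
    rw [Finset.sum_range_one] at h
    exact (Real.exp_pos _).trans_le h
  have hq : 0 < 1 - Real.exp (-ℓ 0) := by
    have : Real.exp (-ℓ 0) < 1 := by
      rw [Real.exp_lt_one_iff]; linarith [hpos 0]
    linarith
  set C : ℝ := 4 * S / (1 - Real.exp (-ℓ 0)) with hCdef
  have hCpos : 0 < C := by positivity
  have hC : ∀ σ, 0 ≤ σ → σ ≤ ℓ 0 / 2 → ∀ K,
      ∑ k ∈ Finset.range K, ortho (ℓ k) (ℓ (k + 1)) * Real.cosh (ht ℓ t k σ) ≤ C :=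
    fun σ h0 h1 K => sum_width_le' hpos hmono hS σ h0 h1 K
  have hconst : ℓ 0 * (1 - Real.exp (-ℓ 0)) / (8 * S) = 1 / C * (ℓ 0 / 2) := by
    rw [hCdef]
    field_simp
    ring
  rw [hconst]
  obtain ⟨K, M', hsupp⟩ := U.compact_support
  have hmassmeas : ∀ k, Measurable fun σ => ENNReal.ofReal (mass U k σ) := by
    intro k
    have hc : Continuous fun σ => mass U k σ := by
      unfold mass
      apply intervalIntegral.continuous_parametric_intervalIntegral_of_continuous'
      have hht : Continuous fun σ => ht ℓ t k σ := by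
        rcases ht_affine (ℓ := ℓ) (t := t) k with ⟨c, hc⟩ | ⟨c, hc⟩
        · simp_rw [hc]; fun_prop
        · simp_rw [hc]; fun_prop
      exact (gx_continuous U k).comp (continuous_snd.prodMk (hht.comp continuous_fst))
    exact hc.measurable.ennreal_ofReal
  calc ENNReal.ofReal (1 / C * (ℓ 0 / 2))
      = ∫⁻ _σ in Icc (0:ℝ) (ℓ 0 / 2), ENNReal.ofReal (1 / C) := by
        rw [lintegral_const, Measure.restrict_apply_univ, Real.volume_Icc, sub_zero,
          ENNReal.ofReal_mul (by positivity)]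
    _ ≤ ∫⁻ σ in Icc (0:ℝ) (ℓ 0 / 2), ∑ k ∈ Finset.range K, ENNReal.ofReal (mass U k σ) := by
        apply setLIntegral_mono' measurableSet_Icc
        intro σ hσ
        rw [← ENNReal.ofReal_sum_of_nonneg fun k _ => mass_nonneg U hpos k σ]
        apply ENNReal.ofReal_le_ofReal
        have := one_le_mass U hpos hmono ht' hC le_rfl hone hsupp hσ.1 hσ.2
        rw [div_le_iff₀ hCpos, mul_comm]
        exact this
    _ = ∑ k ∈ Finset.range K, ∫⁻ σ in Icc (0:ℝ) (ℓ 0 / 2), ENNReal.ofReal (mass U k σ) :=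
        lintegral_finsetSum _ fun k _ => hmassmeas k
    _ ≤ ∑ k ∈ Finset.range K,
        ∑ b : Bool, ∫⁻ p in piece ℓ (k + 1), ENNReal.ofReal (density (U.u (k + 1) b) p) :=
        Finset.sum_le_sum fun k _ => lintegral_mass_le U hpos hmono k
    _ ≤ ∑ n ∈ Finset.range (K + 1),
        ∑ b : Bool, ∫⁻ p in piece ℓ n, ENNReal.ofReal (density (U.u n b) p) := by
        rw [Finset.sum_range_succ' _ K]
        exact le_self_add
    _ ≤ U.energy := ENNReal.sum_le_tsum _

/-- **The strip criterion.** -/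
theorem not_isParabolic_of_gain (hpos : ∀ n, 0 < ℓ n) (hmono : Monotone ℓ)
    (ht' : ∀ n, t n = 0 ∨ t n = 1 / 2)
    (hsum : Summable fun k => Real.exp (-gain ℓ t k)) : ¬ IsParabolic ℓ t := by
  intro hP
  have hS : ∀ K, ∑ k ∈ Finset.range K, Real.exp (-gain ℓ t k) ≤
      ∑' k, Real.exp (-gain ℓ t k) := fun K =>
    hsum.sum_le_tsum _ fun i _ => (Real.exp_pos _).le
  have hS0 : 0 < ∑' k, Real.exp (-gain ℓ t k) := by
    have h := hS 1
    rw [Finset.sum_range_one] at h
    exact (Real.exp_pos _).trans_le h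
  have hq : 0 < 1 - Real.exp (-ℓ 0) := by
    have : Real.exp (-ℓ 0) < 1 := by
      rw [Real.exp_lt_one_iff]; linarith [hpos 0]
    linarith
  have hε : 0 < ENNReal.ofReal (ℓ 0 * (1 - Real.exp (-ℓ 0)) /
      (8 * ∑' k, Real.exp (-gain ℓ t k))) := by
    rw [ENNReal.ofReal_pos]
    have := hpos 0
    positivity
  obtain ⟨U, hone, hlt⟩ := hP 1 (ℓ 0 / 2) _ hε
  exact absurd hlt (not_lt.2 (energy_ge hpos hmono ht' hS U hone))

/-! ### Gaps bounded below -/

/-- The number of earlier steps (from `m` on) at which the end `b` was on top. -/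
noncomputable def cnt (t : ℕ → ℝ) (m : ℕ) (b : Bool) (k : ℕ) : ℕ :=
  ((Finset.range k).filter fun j => m ≤ j ∧ top t j = b).card

theorem growth_ge (hmono : Monotone ℓ) {c : ℝ} {m : ℕ} (hc : ∀ n, m ≤ n → c ≤ ℓ (n + 1) - ℓ n)
    (b : Bool) (k : ℕ) : c / 2 * cnt t m b k ≤ growth ℓ t b k := by
  unfold cnt growth
  rw [Finset.card_filter]
  push_cast
  rw [Finset.mul_sum]
  apply Finset.sum_le_sum
  intro j _
  have h1 := hmono (Nat.le_succ j)
  simp only [Nat.succ_eq_add_one] at h1
  by_cases hj : top t j = b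
  · by_cases hm : m ≤ j
    · have := hc j hm
      rw [if_pos ⟨hm, hj⟩, if_pos hj]
      linarith
    · rw [if_neg (fun h => hm h.1), if_pos hj]
      linarith
  · rw [if_neg (fun h => hj h.2), if_neg hj]
    linarith

theorem cnt_succ (m : ℕ) (b : Bool) (k : ℕ) :
    cnt t m b (k + 1) = cnt t m b k + if m ≤ k ∧ top t k = b then 1 else 0 := by
  unfold cnt
  rw [Finset.range_add_one, Finset.filter_insert]
  split_ifs with h
  · rw [Finset.card_insert_of_notMem (by simp)]
  · rfl

/-- The sums of the powers over the steps. -/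
theorem sum_pow_le {r : ℝ} (h0 : 0 ≤ r) (h1 : r < 1) (m K : ℕ) :
    ∑ k ∈ Finset.range K, r ^ cnt t m (top t k) k ≤
      m + ∑ i ∈ Finset.range (cnt t m true K), r ^ i +
        ∑ i ∈ Finset.range (cnt t m false K), r ^ i := by
  induction K with
  | zero =>
    simp only [Finset.range_zero, Finset.sum_empty]
    have h2 : 0 ≤ ∑ i ∈ Finset.range (cnt t m true 0), r ^ i :=
      Finset.sum_nonneg fun i _ => pow_nonneg h0 i
    have h3 : 0 ≤ ∑ i ∈ Finset.range (cnt t m false 0), r ^ i :=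
      Finset.sum_nonneg fun i _ => pow_nonneg h0 i
    positivity
  | succ K ih =>
    rw [Finset.sum_range_succ]
    by_cases hm : m ≤ K
    · rw [cnt_succ, cnt_succ]
      cases hk : top t K with
      | true =>
        simp only [hm, true_and, if_true, Finset.sum_range_succ, reduceCtorEq, if_false, add_zero]
        linarith
      | false =>
        simp only [hm, true_and, if_true, Finset.sum_range_succ, reduceCtorEq, if_false, add_zero]
        linarith
    · -- before step `m` every term is at most one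
      have h2 : ∑ k ∈ Finset.range K, r ^ cnt t m (top t k) k + r ^ cnt t m (top t K) K ≤ K + 1 := by
        have h3 : ∑ k ∈ Finset.range K, r ^ cnt t m (top t k) k ≤ ∑ k ∈ Finset.range K, 1 :=
          Finset.sum_le_sum fun k _ => pow_le_one₀ h0 h1.le
        have h4 : r ^ cnt t m (top t K) K ≤ 1 := pow_le_one₀ h0 h1.le
        simp at h3
        linarith
      have h3 : 0 ≤ ∑ i ∈ Finset.range (cnt t m true (K + 1)), r ^ i :=
        Finset.sum_nonneg fun i _ => pow_nonneg h0 i
      have h4 : 0 ≤ ∑ i ∈ Finset.range (cnt t m false (K + 1)), r ^ i :=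
        Finset.sum_nonneg fun i _ => pow_nonneg h0 i
      have h5 : (K : ℝ) + 1 ≤ m := by
        have : K + 1 ≤ m := by omega
        exact_mod_cast this
      linarith

/-- The explicit bound of the sums for gaps at least `c` from step `m` on. -/
theorem sum_gain_le (hmono : Monotone ℓ) {c : ℝ} (hc0 : 0 < c) {m : ℕ}
    (hc : ∀ n, m ≤ n → c ≤ ℓ (n + 1) - ℓ n) (K : ℕ) :
    ∑ k ∈ Finset.range K, Real.exp (-gain ℓ t k) ≤ m + 2 / (1 - Real.exp (-(c / 2))) := by
  set r : ℝ := Real.exp (-(c / 2)) with hr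
  have h0 : 0 ≤ r := (Real.exp_pos _).le
  have h1 : r < 1 := by rw [hr, Real.exp_lt_one_iff]; linarith
  have h2 : ∑ k ∈ Finset.range K, Real.exp (-gain ℓ t k) ≤
      ∑ k ∈ Finset.range K, r ^ cnt t m (top t k) k := by
    apply Finset.sum_le_sum
    intro k _
    rw [hr, ← Real.exp_nat_mul]
    apply Real.exp_le_exp.2
    have := growth_ge (t := t) hmono hc (top t k) k
    unfold gain
    linarith
  have h3 : ∀ n : ℕ, ∑ i ∈ Finset.range n, r ^ i ≤ 1 / (1 - r) := by
    intro n
    rw [geom_sum_eq h1.ne]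
    rw [show (r ^ n - 1) / (r - 1) = (1 - r ^ n) / (1 - r) by
      rw [← neg_sub 1 (r ^ n), ← neg_sub 1 r, neg_div_neg_eq]]
    apply div_le_div_of_nonneg_right _ (by linarith)
    have := pow_nonneg h0 n
    linarith
  have h4 := sum_pow_le (t := t) h0 h1 m K
  have h5 := h3 (cnt t m true K)
  have h6 := h3 (cnt t m false K)
  have e : (2 : ℝ) / (1 - r) = 1 / (1 - r) + 1 / (1 - r) := by ring
  rw [e]
  linarith

theorem summable_gain (hmono : Monotone ℓ) {c : ℝ} (hc0 : 0 < c) {m : ℕ}
    (hc : ∀ n, m ≤ n → c ≤ ℓ (n + 1) - ℓ n) : Summable fun k => Real.exp (-gain ℓ t k) :=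
  summable_of_sum_range_le (fun _ => (Real.exp_pos _).le) (sum_gain_le hmono hc0 hc)

/-- If the gaps are bounded below then the capacity is bounded below, uniformly over all choices
of twists in `{0, 1 / 2}`. -/
theorem energy_ge_of_gaps (hpos : ∀ n, 0 < ℓ n) (hmono : Monotone ℓ) {c : ℝ} (hc0 : 0 < c)
    {m : ℕ} (hc : ∀ n, m ≤ n → c ≤ ℓ (n + 1) - ℓ n) (ht' : ∀ n, t n = 0 ∨ t n = 1 / 2)
    (U : TestFun ℓ t)
    (hone : ∀ n b p, n ≤ 1 → p ∈ piece ℓ n → p.2 ≤ ℓ 0 / 2 → U.u n b p = 1) :
    ENNReal.ofReal (ℓ 0 * (1 - Real.exp (-ℓ 0)) / (8 * (m + 2 / (1 - Real.exp (-(c / 2)))))) ≤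
      U.energy :=
  energy_ge hpos hmono ht' (sum_gain_le hmono hc0 hc) U hone

/-- If the gaps are bounded below then no choice of twists in `{0, 1 / 2}` is parabolic. -/
theorem not_isParabolic_of_gaps (hpos : ∀ n, 0 < ℓ n) (hmono : Monotone ℓ) {c : ℝ} (hc0 : 0 < c)
    (hc : ∀ᶠ n in atTop, c ≤ ℓ (n + 1) - ℓ n) (ht' : ∀ n, t n = 0 ∨ t n = 1 / 2) :
    ¬ IsParabolic ℓ t := by
  obtain ⟨m, hm⟩ := eventually_atTop.1 hc
  exact not_isParabolic_of_gain hpos hmono ht' (summable_gain hmono hc0 hm)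

end Pool.Agent.Y203.Flute
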